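import Mathlib
import Pool.Agent.W57.SW.Count

/-!
# Small witnesses for the strong pseudoprimality test: `O(x^(1/2+ε))` exceptions

Unconditionally all but `O(x^(1/2+ε))` of the composite numbers `n ≤ x` have a witness
`1 < b ≤ 2 (log n)²`; more generally, for every `A ≥ 2` all but `O(x^(1/A+ε))` of them have a witness
`1 < b ≤ 2 (log n)^A`.

Proof. Let `n` be an exception. It is squarefree, and if `p` is a prime divisor of `n = p m` such that the
exponent of `2` in `p - 1` is least, then all small odd primes `ℓ` have Jacobi symbol `(ℓ/n) = 1`, or all have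
`(ℓ/m) = 1`. The products of small primes form a set of more than `X^(1-1/A-ε)` numbers up to `X`, and so
Heath-Brown's large sieve for real characters shows that at most `O(X^(1/A+ε))` odd squarefree numbers up to `X`
have symbol `1` at all these primes. In the second case `m` is such a number, and the group generated by the
small primes modulo `p` has more than `p^(1-1/A-ε)` elements, and its order divides `gcd (p-1) (m-1)`, which
leaves only `O((x/m)^(1/A+ε))` possibilities for `p`.
-/

set_option autoImplicit false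

namespace Pool.Agent.Results.MP_0b15c0_nt.SquareRootExceptions

/-- `n` fails the strong test for the base `b`: writing `n - 1 = 2 ^ j * d` with `d` odd, neither
`b ^ d = 1` nor `b ^ (2 ^ i * d) = -1` for some `i < j`, modulo `n`. -/
def IsWitness (n b : ℕ) : Prop :=
  ∀ j d : ℕ, n - 1 = 2 ^ j * d → Odd d →
    (b : ZMod n) ^ d ≠ 1 ∧ ∀ i : ℕ, i < j → (b : ZMod n) ^ (2 ^ i * d) ≠ -1

/-- the composite numbers at most `x` without a witness in `1 < b ≤ 2 (log n)^A` -/
def Exceptions (A : ℝ) (x : ℕ) : Set ℕ :=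
  {n : ℕ | n ≤ x ∧ 2 ≤ n ∧ ¬ n.Prime ∧
    ¬ ∃ b : ℕ, 1 < b ∧ (b : ℝ) ≤ 2 * (Real.log n) ^ A ∧ IsWitness n b}

/-- For every real `A ≥ 2` and every `ε > 0` there is `K` such that for all `x ≥ 1` at most
`K x^(1/A+ε)` composite `n ≤ x` have no witness `b` with `1 < b ≤ 2 (log n)^A`. For `A = 2` this is the
range of the question. -/
theorem result (A ε : ℝ) (hA : 2 ≤ A) (hε : 0 < ε) : ∃ K : ℝ, ∀ x : ℕ, 1 ≤ x →
    (Exceptions A x).Finite ∧ ((Exceptions A x).ncard : ℝ) ≤ K * (x : ℝ) ^ (1 / A + ε) := by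
  classical
  obtain ⟨K, _, hK⟩ := W57.SW.bd_count A ε hA hε
  refine ⟨K, fun x hx => ?_⟩
  have h1 : Exceptions A x ⊆ (((Finset.Icc 1 x).filter (W57.SW.Bd A) : Finset ℕ) : Set ℕ) := by
    intro n hn
    obtain ⟨h1, h2, h3, h4⟩ := hn
    rw [Finset.mem_coe, Finset.mem_filter, Finset.mem_Icc]
    refine ⟨⟨by omega, h1⟩, h2, h3, fun b hb1 hb2 => ?_⟩
    by_contra hp
    apply h4
    refine ⟨b, hb1, hb2, fun j d hjd hd => ⟨fun e => ?_, fun i hi e => ?_⟩⟩
    · exact hp ⟨j, d, hjd, hd, Or.inl e⟩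
    · exact hp ⟨j, d, hjd, hd, Or.inr ⟨i, hi, e⟩⟩
  have h2 : (Exceptions A x).Finite := (Finset.finite_toSet _).subset h1
  refine ⟨h2, le_trans ?_ (hK x hx)⟩
  have h3 := Set.ncard_le_ncard h1 (Finset.finite_toSet _)
  rw [Set.ncard_coe_finset] at h3
  exact_mod_cast h3

end Pool.Agent.Results.MP_0b15c0_nt.SquareRootExceptions
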